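import Pool.Agent.U136.DX.All3
import Pool.Agent.U136.DS.Gen2

set_option autoImplicit false

/-!
# Navier-Stokes equations with an arbitrarily small explicit dispersive term

We add to the Navier-Stokes equations on the torus `(ℝ / 2πℤ) ^ 3` (true nonlinearity, true
viscosity) a skew-adjoint Fourier multiplier `(L u)_k = i λ_k u_k`, `λ` real and odd; it does not
change the energy law:
`∂_t u + P (u · ∇) u + L u = ν Δ u`, `div u = 0`.

(1) EXPLICIT LOCAL OPERATORS. For `λ_k = (e · k) |k| ^ (2 m) + q(k)`, `e ≠ 0` any vector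
(arbitrarily small), `m ≥ 3`, `q` any odd real polynomial of degree `≤ 2 m`, that is, for
`L = (-1) ^ m (e · ∇) Δ ^ m + terms of lower order`, e.g. `L = ε ∂₁ Δ ^ 3`, there are unique global
smooth solutions for all `ν > 0` and all smooth data. Nothing is random, nothing is small or large.

(2) CRITERION. The same holds whenever `λ` has polynomial growth and, for some `τ > 3`, each wave
vector is in at most `B R ^ 2` triads `k + l + m = 0` of size `R` (dyadic) with
`|λ_k + λ_l + λ_m| < c R ^ τ`. The exponent `2` is critical: it is the number of integer points near a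
surface.

(3) RANDOM FREQUENCIES. `λ_k = ε |k| ^ σ Z_k`, `σ > 4`, with `Z_k` bounded, of bounded density,
independent apart from `Z_{-k} = -Z_k`: almost surely, for all `ν > 0`, all `ε ≠ 0` and all data.

(4) ALMOST ALL POLYNOMIALS. `ε (λ⁰ + p)`, `λ⁰` odd of polynomial growth, for almost every real
homogeneous polynomial `p` of odd degree `d ≥ 9`, all `ν > 0`, `ε ≠ 0` and all data.

Proof of (2): one normal form step removes the non-resonant triads; the correction of the Sobolev
norm and the remainder are of lower order because `τ > 3`. In the near-resonant trilinear form the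
gradient is put on the shortest wave vector of the triad (symmetrisation); by Cauchy-Schwarz and the
degree bound it is at most `C ‖∇u‖ ‖u‖_s ‖u‖_{s+1}`, and Gronwall's lemma with
`∫ ‖∇u‖² dt ≤ ‖u₀‖² / 2ν` closes the estimate. Proof of (1): the integer points where the
polynomial `P k = λ(k) - λ(k + m) + λ(m)` is small are either ends of runs on lines (at most
`C R ^ 2`) or all integer translates of `P` are small there; then all finite differences of `λ`
nearly coincide at `k` and `k + m`. This is impossible for `R` large: the function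
`(e · ∇) ((e · x) |x| ^ (2 m))` is uniformly convex, with Hessian `≥ c |x| ^ (2 m - 2)`, so its
gradient, which consists of second derivatives of `λ` up to terms of lower order, differs at `k` and
`k + m` by at least `c' R ^ 4`.

Parts of this project: helpers 27, 109, 123, 136, 139, 187, 212, 319, 333, 390, 397, 399, 423, 450,
739, 770, 801, 810, 925, 962, 975;
of its predecessors: 29, 84, 94, 97, 103, 208, 324, 338, 394, 401, 411, 448, 451, 460, 473, 643,
692, 736, 741, 884, 908, 913, 981; ALG, EST, SHL are from Pool/Agent/N983/RT in the starting library.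
-/

namespace Pool.Agent.Results.MP_6bf1e5_an.ExplicitDispersion

open MeasureTheory ProbabilityTheory Pool.Agent.N983.RT Pool.Agent.U136.DS Pool.Agent.U136.DX
  Pool.Agent.U29.EU

/-- The Navier-Stokes equations with the dispersive term `± (e · ∇) Δ ^ m u`, `e ≠ 0` arbitrarily
small, `m ≥ 3`, plus any odd terms of lower order, are globally well-posed for all smooth data; the
same for all dispersion relations with at most `B R ^ 2` near-resonant triads of size `R` through
each wave vector. -/
theorem result :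
    (∀ (e : Fin 3 → ℝ) (m : ℕ), e ≠ 0 → 3 ≤ m → ∀ q : MvPolynomial (Fin 3) ℝ,
      (∀ k : Wv, ev q (-k) = -ev q k) → q.totalDegree ≤ 2 * m → ∀ ν : ℝ, 0 < ν →
        GWPD ν (fun k => (∑ i, e i * (k i : ℝ)) * nsq k ^ m + ev q k)) ∧
    (∀ lam : Wv → ℝ, Disp lam → ∀ c₁ τ B : ℝ, 0 < c₁ → 3 < τ → DegG (near lam c₁ τ) B →
      ∀ ν : ℝ, 0 < ν → GWPD ν lam) ∧
    (∀ σ : ℝ, 4 < σ → ∀ (Ω : Type) [MeasurableSpace Ω] (μ : Measure Ω) [IsProbabilityMeasure μ]
      (Z : Sym2 Wv → Ω → ℝ) (e : Wv → ℝ), (∀ c, Measurable (Z c)) → iIndepFun Z μ → Sgn e →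
      ∀ D D' : ℝ, Dens μ Z D → (∀ c, ∀ᵐ ω ∂μ, |Z c ω| ≤ D') →
        ∀ᵐ ω ∂μ, ∀ ν ε : ℝ, 0 < ν → ε ≠ 0 → GWPD ν (fun k => ε * rlam σ e Z ω k)) ∧
    ∀ d : ℕ, Odd d → 9 ≤ d → ∀ lam : Wv → ℝ, Disp lam →
      ∀ᵐ c : Mi d → ℝ, ∀ ν ε : ℝ, 0 < ν → ε ≠ 0 → GWPD ν (fun k => ε * (lam k + pol c k)) :=
  ⟨fun e m he hm q hq hd ν hν => slap e m he hm q hq hd ν hν,
    fun lam hlam c₁ τ B hc hτ hdeg ν hν => crit2 lam hlam c₁ τ B hc hτ hdeg ν hν,
    fun σ hσ Ω _ μ _ Z e hZ hi he D D' hD hb => rand σ hσ Ω μ Z e hZ hi he D D' hD hb,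
    fun d hd h9 lam hlam => gen' d hd h9 lam hlam⟩

end Pool.Agent.Results.MP_6bf1e5_an.ExplicitDispersion
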