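import Pool.Agent.U162.LX.C12
import Pool.Agent.U162.SH.Rig
import Pool.Agent.U162.SH.Wave

/-!
Smooth solutions of the forced Navier-Stokes equations which follow an arbitrary velocity, with forces which are close
to an arbitrary force, and equal to it outside few short intervals: the graph of the solution operator is dense in the
pairs of a force and a velocity, in the scaling critical norms with third index above two. With third index two it is not.

`R3 = Fin 3 → ℝ`. `pd`, `fc` and `critNorm` are in `Pool.Agent.H356R3.NS.Defs`.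
-/

open MeasureTheory Set Filter Topology
open scoped ContDiff ENNReal

namespace Pool.Agent.Results.MP_6bf1e5_an.Flexibility

open Pool.Agent.H356R3.NS

/-- The interval `[0, sup T_i)`. -/
def Span (T : ℕ → ℝ) : Set ℝ := {t | 0 ≤ t ∧ ∃ i, t < T i}

/-- `g` is `C^∞` on `D × ℝ³` (with one-sided time derivatives at `t = 0`), and for `t ∈ D` it is `ℤ³`-periodic in `x`
and has the mean value zero. -/
structure SmoothOn (D : Set ℝ) (g : ℝ → R3 → R3) : Prop where
  smooth : ContDiffOn ℝ ∞ (fun z : ℝ × R3 => g z.1 z.2) (D ×ˢ univ)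
  periodic : ∀ t ∈ D, ∀ x j, g t (x + Pi.single j 1) = g t x
  mean : ∀ t ∈ D, ∀ i, ∫ x in Icc (0 : R3) 1, g t x i = 0

/-- `g` is divergence free for the times in `D`. -/
def DivFree (D : Set ℝ) (g : ℝ → R3 → R3) : Prop := ∀ t ∈ D, ∀ x, ∑ i, pd i (fun y => g t y i) x = 0

/-- `(u, p)` is a smooth periodic solution of the Navier-Stokes equations with viscosity `ν` and force `f`,
for the times in `D ⊆ [0,∞)`: `∂_t u_i + ∑_j u_j ∂_j u_i = ν Δ u_i - ∂_i p + f_i` and `div u = 0`. -/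
structure Solves (ν : ℝ) (D : Set ℝ) (f u : ℝ → R3 → R3) (p : ℝ → R3 → ℝ) : Prop where
  force : SmoothOn D f
  velocity : SmoothOn D u
  smooth_p : ContDiffOn ℝ ∞ (fun z : ℝ × R3 => p z.1 z.2) (D ×ˢ univ)
  periodic_p : ∀ t ∈ D, ∀ x j, p t (x + Pi.single j 1) = p t x
  momentum : ∀ t ∈ D, ∀ x i,
    derivWithin (fun s => u s x i) (Ici 0) t + ∑ j, u t x j * pd j (fun y => u t y i) x
      = ν * ∑ j, pd j (pd j fun y => u t y i) x - pd i (p t) x + f t x i
  divFree : DivFree D u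

/-- All derivatives of `a - b` of order at most `m` are at most `ε`. -/
def CloseC (m : ℕ) (ε : ℝ) (a b : R3 → R3) : Prop :=
  ∀ n ≤ m, ∀ x, ‖iteratedFDeriv ℝ n (fun y => a y - b y) x‖ ≤ ε

/-- `P t` holds for all `t ∈ [a, b]` outside finitely many intervals of total length at most `β`. -/
def Outside (β a b : ℝ) (P : ℝ → Prop) : Prop :=
  ∃ S : Finset (ℝ × ℝ), (∀ J ∈ S, J.1 ≤ J.2) ∧ ∑ J ∈ S, (J.2 - J.1) ≤ β ∧
    ∀ t ∈ Icc a b, (∀ J ∈ S, t ∉ Icc J.1 J.2) → P t

lemma mean_of_fc {f : R3 → R3} (h : fc f 0 = 0) (i : Fin 3) : ∫ x in Icc (0 : R3) 1, f x i = 0 := by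
  have h1 := congrFun h i
  unfold fc at h1
  simp only [Pi.zero_apply, Int.cast_zero, zero_mul, Finset.sum_const_zero, mul_zero, neg_zero, Complex.exp_zero,
    mul_one] at h1
  rw [integral_complex_ofReal] at h1
  exact_mod_cast h1

lemma fc_of_mean {f : R3 → R3} (h : ∀ i, ∫ x in Icc (0 : R3) 1, f x i = 0) : fc f 0 = 0 := by
  funext i
  unfold fc
  simp only [Pi.zero_apply, Int.cast_zero, zero_mul, Finset.sum_const_zero, mul_zero, neg_zero, Complex.exp_zero, mul_one]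
  rw [integral_complex_ofReal, h i]
  simp

lemma SmoothOn.spf {D : Set ℝ} {g : ℝ → R3 → R3} (h : SmoothOn D g) {t : ℝ} (ht : t ∈ D) : Pool.Agent.U162.SF.SPF (g t) := fun i => by
  refine ⟨?_, fun j x => by show g t (x + Pi.single j 1) i = g t x i; rw [h.periodic t ht]⟩
  have h1 : ContDiff ℝ ∞ (g t) := by
    rw [← contDiffOn_univ]
    exact h.smooth.comp (f := fun x : R3 => ((t, x) : ℝ × R3)) (contDiff_const.prodMk contDiff_id).contDiffOn
      fun x _ => ⟨ht, trivial⟩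
  exact contDiff_pi.1 h1 i

lemma SmoothOn.field {D : Set ℝ} {v : ℝ → R3 → R3} (h : SmoothOn D v) (hd : DivFree D v) {t : ℝ} (ht : t ∈ D) :
    Pool.Agent.U162.GE.Field (v t) where
  smooth := contDiff_pi.2 fun i => (h.spf ht i).smooth
  periodic := fun x j => h.periodic t ht x j
  divFree := fun x => hd t ht x
  mean := fun i => h.mean t ht i

lemma solves {ν : ℝ} {I D : Set ℝ} {f u : ℝ → R3 → R3} {p : ℝ → R3 → ℝ} (h : Pool.Agent.U162.SF.PthOn ν I f u p)
    (hD : D ⊆ I) (h0 : ∀ t ∈ D, 0 ≤ t) : Solves ν D f u p where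
  force := ⟨fun z hz => (h.sf z.1 (hD hz.1) z.2).contDiffWithinAt, fun t ht => h.pf t (hD ht), fun t ht i => mean_of_fc (h.mf t (hD ht)) i⟩
  velocity := ⟨fun z hz => (h.su z.1 (hD hz.1) z.2).contDiffWithinAt, fun t ht => h.pu t (hD ht), fun t ht i => mean_of_fc (h.mu t (hD ht)) i⟩
  smooth_p := fun z hz => (h.sp z.1 (hD hz.1) z.2).contDiffWithinAt
  periodic_p := fun t ht => h.pp t (hD ht)
  momentum := fun t ht x i => by
    rw [← h.mo t (hD ht) x i]
    congr 1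
    exact (Pool.Agent.U162.SF.slice_t (g := fun s y => u s y i)
      (Pool.Agent.U162.SF.comp_joint (h.su t (hD ht) x) i)).derivWithin (uniqueDiffOn_Ici 0 t (h0 t ht))
  divFree := fun t ht => h.dv t (hD ht)

/-- The sum of the norms of the Fourier coefficients. It bounds the maximum of `‖a(x)‖`. -/
noncomputable def wiener (a : R3 → R3) : ℝ≥0∞ := ∑' k, ‖fc a k‖ₑ

lemma sln {ν T : ℝ} {f u : ℝ → R3 → R3} {p : ℝ → R3 → ℝ} (h : Solves ν (Ico 0 T) f u p) : Pool.Agent.U162.SF.Sln ν T f u p where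
  hu := fun i => ⟨contDiffOn_pi.1 h.velocity.smooth i, fun _ ht => h.velocity.spf ht i⟩
  huf := fun _ ht => h.velocity.field h.divFree ht
  hf := fun i => ⟨contDiffOn_pi.1 h.force.smooth i, fun _ ht => h.force.spf ht i⟩
  hp := ⟨h.smooth_p, fun t ht => by
    refine ⟨?_, fun j x => h.periodic_p t ht x j⟩
    rw [← contDiffOn_univ]
    exact h.smooth_p.comp (f := fun x : R3 => ((t, x) : ℝ × R3)) (contDiff_const.prodMk contDiff_id).contDiffOn
      fun x _ => ⟨ht, trivial⟩⟩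
  mo := fun t ht x i => by
    have h1 := h.momentum t ⟨ht.1.le, ht.2⟩ x i
    rw [derivWithin_of_mem_nhds (Ici_mem_nhds ht.1)] at h1
    have h2 : Pool.Agent.U162.SF.Rs ν (u t) x i
        = (∑ j, u t x j * pd j (fun y => u t y i) x) + (-ν) * ∑ j, pd j (pd j fun y => u t y i) x := rfl
    rw [h2]
    linarith

theorem flex {ν : ℝ} (hν : 0 < ν) {T : ℕ → ℝ} {v g : ℝ → R3 → R3} {s r ε : ℕ → ℝ} (hT : StrictMono T) (hT0 : T 0 = 0)
    (hv : SmoothOn (Span T) v) (hdiv : DivFree (Span T) v) (hg : SmoothOn (Span T) g)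
    (hs : ∀ i, 2 < s i) (hr : ∀ i, 0 < r i ∧ r i < 2) (hε : ∀ i, 0 < ε i) (m : ℕ → ℕ) :
    ∃ (f u : ℝ → R3 → R3) (p : ℝ → R3 → ℝ), Solves ν (Span T) f u p ∧ (∀ i, u (T i) = v (T i)) ∧ ∀ i,
      ∫⁻ t in Icc (T i) (T (i + 1)), critNorm (s i) (fc fun x => f t x - g t x) ≤ ENNReal.ofReal (ε i) ∧
      (∀ t ∈ Icc (T i) (T (i + 1)), critNorm (s i) (fc fun x => u t x - v t x) ≤ ENNReal.ofReal (ε i)) ∧
      ∫⁻ t in Icc (T i) (T (i + 1)), wiener (fun x => u t x - v t x) ^ r i ≤ ENNReal.ofReal (ε i) ∧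
      Outside (ε i) (T i) (T (i + 1)) (fun t => f t = g t ∧ CloseC (m i) (ε i) (u t) (v t)) ∧
      ((∀ t ∈ Icc (T i) (T (i + 1)), v t = 0 ∧ g t = 0) → ∀ t ∈ Icc (T i) (T (i + 1)), f t = 0 ∧ u t = 0) := by
  have hpi : ∀ i, (0 : ℝ) < (6 * Real.pi) ^ m i := fun i => by positivity
  have hpi1 : (1 : ℝ) ≤ 6 * Real.pi := by have := Real.pi_gt_three; linarith
  set ε' : ℕ → ℝ := fun i => ε i / (6 * Real.pi) ^ m i with hε'
  have hε'0 : ∀ i, 0 < ε' i := fun i => div_pos (hε i) (hpi i)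
  have hle : ∀ i, ε' i ≤ ε i := fun i => div_le_self (hε i).le (one_le_pow₀ hpi1)
  have hle' : ∀ i, ENNReal.ofReal (ε' i) ≤ ENNReal.ofReal (ε i) := fun i => ENNReal.ofReal_le_ofReal (hle i)
  obtain ⟨f, u, p, h1, h2, h3⟩ := Pool.Agent.U162.SF.flexH hν hT hT0 hg.smooth (fun t ht => hg.spf ht)
    (fun t ht => fc_of_mean (hg.mean t ht)) hv.smooth (fun t ht => hv.field hdiv ht) m hs (fun i => (hr i).1) (fun i => (hr i).2) hε'0
  refine ⟨f, u, p, solves h1 (fun t ht => ht.2) (fun t ht => ht.1), h2, fun i => ?_⟩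
  obtain ⟨h4, h4b, h4c, h5, h6⟩ := h3 i
  refine ⟨h4.trans (hle' i), fun t ht => (h4b t ht).trans (hle' i), h4c.trans (hle' i), ?_, h6⟩
  have hT0' : 0 ≤ T i := by rw [← hT0]; exact hT.monotone (Nat.zero_le i)
  refine (h5.le (hle i)).imp fun t ht hw => ?_
  have htS : t ∈ Span T := ⟨hT0'.trans ht.1, i + 2, ht.2.trans_lt (hT (Nat.lt_succ_self _))⟩
  refine ⟨hw.2, fun n hn' x => ?_⟩
  refine (Pool.Agent.U162.SF.spf_iter (Pool.Agent.U162.SF.SPF.sub (h1.spu (t := t) htS.2) (hv.spf htS)) n (hε'0 i).le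
    ((Pool.Agent.U162.SF.Wm_mono hn' _).trans hw.1) x).trans ?_
  calc (6 * Real.pi) ^ n * ε' i ≤ (6 * Real.pi) ^ m i * ε' i :=
        mul_le_mul_of_nonneg_right (pow_le_pow_right₀ hpi1 hn') (hε'0 i).le
    _ = ε i := by rw [hε']; field_simp

lemma span_eq {T : ℝ} (hT : 0 < T) : Span (fun i : ℕ => T * (1 - (1 / 2) ^ i)) = Ico 0 T := by
  ext t
  constructor
  · rintro ⟨h0, i, hi⟩
    refine ⟨h0, hi.trans_le ?_⟩
    have h1 : (0 : ℝ) ≤ (1 / 2) ^ i := by positivity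
    nlinarith
  · intro ht
    obtain ⟨i, hi⟩ := exists_pow_lt_of_lt_one (show (0 : ℝ) < 1 - t / T by
      rw [sub_pos, div_lt_one hT]; exact ht.2) (show (1 / 2 : ℝ) < 1 by norm_num)
    refine ⟨ht.1, i, ?_⟩
    have h1 : t / T < 1 - (1 / 2) ^ i := by linarith
    rw [div_lt_iff₀ hT] at h1
    show t < T * (1 - (1 / 2) ^ i)
    linarith

/-- Blow-up from the zero velocity by an arbitrarily small force. -/
theorem blow {ν : ℝ} (hν : 0 < ν) {T s ε : ℝ} (hT : 0 < T) (hs : 2 < s) (hε : 0 < ε) :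
    ∃ (f u : ℝ → R3 → R3) (p : ℝ → R3 → ℝ), Solves ν (Ico 0 T) f u p ∧ u 0 = 0 ∧
      ∫⁻ t in Ico 0 T, critNorm s (fc (f t)) ≤ ENNReal.ofReal ε ∧
      Tendsto (fun t => critNorm s (fc (u t))) (𝓝[<] T) (𝓝 ⊤) := by
  obtain ⟨τ, hτ⟩ : ∃ τ : ℕ → ℝ, τ = fun i : ℕ => T * (1 - (1 / 2) ^ i) := ⟨_, rfl⟩
  have hsp : Span τ = Ico 0 T := by rw [hτ]; exact span_eq hT
  have hmono : StrictMono τ := strictMono_nat_of_lt_succ fun i => by
    rw [hτ]
    simp only
    have h1 : (0 : ℝ) < (1 / 2) ^ i := by positivity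
    rw [pow_succ]
    nlinarith
  have h0 : τ 0 = 0 := by rw [hτ]; simp
  obtain ⟨c, hc⟩ : ∃ c : ℝ, c = min 1 ε := ⟨_, rfl⟩
  have hc0 : 0 < c := by rw [hc]; exact lt_min one_pos hε
  obtain ⟨η, hη⟩ : ∃ η : ℕ → ℝ, η = fun i => c / 2 * (1 / 2) ^ i := ⟨_, rfl⟩
  have hη0 : ∀ i, 0 < η i := fun i => by rw [hη]; positivity
  have hη1 : ∀ i, η i ≤ 1 := fun i => by
    have h1 : c ≤ 1 := by rw [hc]; exact min_le_left _ _
    have h2 : ((1 : ℝ) / 2) ^ i ≤ 1 := pow_le_one₀ (by norm_num) (by norm_num)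
    have h3 : (0 : ℝ) < (1 / 2) ^ i := by positivity
    rw [hη]
    nlinarith
  have hvf : ∀ t, Pool.Agent.U162.GE.Field (Pool.Agent.U162.SF.vb T t) := Pool.Agent.U162.SF.vb_field T
  have hw := Pool.Agent.U162.GE.fld_field Pool.Agent.U162.SF.wv_dta
  have hv : SmoothOn (Span τ) (Pool.Agent.U162.SF.vb T) := by
    refine ⟨?_, fun t _ x j => (hvf t).periodic x j, fun t _ i => (hvf t).mean i⟩
    have h1 : ContDiffOn ℝ ∞ (fun z : ℝ × R3 => z.1 / (T - z.1)) (Span τ ×ˢ univ) := by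
      refine contDiff_fst.contDiffOn.div (contDiff_const.sub contDiff_fst).contDiffOn fun z hz => ?_
      have := (hsp ▸ hz.1 : z.1 ∈ Ico 0 T).2
      linarith
    have h2 : ContDiffOn ℝ ∞ (fun z : ℝ × R3 => Pool.Agent.U162.GE.fld Pool.Agent.U162.SF.wv z.2) (Span τ ×ˢ univ) :=
      (hw.smooth.comp contDiff_snd).contDiffOn
    exact h1.smul h2
  have hg : SmoothOn (Span τ) (fun _ _ => (0 : R3)) := ⟨contDiffOn_const, fun _ _ _ _ => rfl, fun _ _ _ => by simp⟩
  obtain ⟨f, u, p, h1, h2, h3⟩ := flex hν (s := fun _ => s) (r := fun _ => 1) (ε := η) hmono h0 hv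
    (fun t _ => (hvf t).divFree) hg (fun _ => hs) (fun _ => ⟨one_pos, one_lt_two⟩) hη0 (fun _ => 0)
  rw [hsp] at h1
  have hloc : ∀ t ∈ Ico 0 T, ∃ i, t ∈ Icc (τ i) (τ (i + 1)) := by
    intro t ht
    have h4 : ∃ i, t < τ i := (hsp.symm ▸ ht : t ∈ Span τ).2
    classical
    have h5 := Nat.find_spec h4
    have h6 : Nat.find h4 ≠ 0 := fun h => by
      rw [h, h0] at h5
      exact absurd ht.1 (not_le.2 h5)
    obtain ⟨i, hi⟩ := Nat.exists_eq_succ_of_ne_zero h6
    refine ⟨i, ?_, ?_⟩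
    · exact not_lt.1 (Nat.find_min h4 (m := i) (by rw [hi]; exact Nat.lt_succ_self i))
    · rw [hi] at h5; exact h5.le
  refine ⟨f, u, p, h1, ?_, ?_, ?_⟩
  · have h4 := h2 0
    rw [h0] at h4
    rw [h4]
    funext x
    simp [Pool.Agent.U162.SF.vb]
  · calc ∫⁻ t in Ico 0 T, critNorm s (fc (f t)) ≤ ∫⁻ t in ⋃ i, Icc (τ i) (τ (i + 1)), critNorm s (fc (f t)) :=
          lintegral_mono_set fun t ht => mem_iUnion.2 (hloc t ht)
      _ ≤ ∑' i, ∫⁻ t in Icc (τ i) (τ (i + 1)), critNorm s (fc (f t)) := lintegral_iUnion_le _ _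
      _ ≤ ∑' i, ENNReal.ofReal (η i) := by
          refine ENNReal.tsum_le_tsum fun i => ?_
          have h4 := (h3 i).1
          simpa using h4
      _ = ENNReal.ofReal (∑' i, η i) := by
          rw [ENNReal.ofReal_tsum_of_nonneg (fun i => (hη0 i).le)]
          rw [hη]
          exact summable_geometric_two.mul_left _
      _ ≤ ENNReal.ofReal ε := by
          refine ENNReal.ofReal_le_ofReal ?_
          rw [hη, tsum_mul_left, tsum_geometric_two]
          have h4 : c ≤ ε := by rw [hc]; exact min_le_right _ _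
          linarith
  · have hlow : ∀ t ∈ Ico 0 T, ENNReal.ofReal (t / (T - t)) ≤ critNorm s (fc (u t)) + 1 := by
      intro t ht
      obtain ⟨i, hi⟩ := hloc t ht
      have h4 := (h3 i).2.1 t hi
      have h5 : critNorm s (fc fun x => u t x - Pool.Agent.U162.SF.vb T t x) ≤ 1 :=
        h4.trans ((ENNReal.ofReal_le_ofReal (hη1 i)).trans (by simp))
      have su : Pool.Agent.U162.SF.SPF (u t) := h1.velocity.spf ht
      have sv : Pool.Agent.U162.SF.SPF (Pool.Agent.U162.SF.vb T t) := (hvf t).sp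
      refine (Pool.Agent.U162.SF.vb_crit (s := s) (by linarith) ht).trans ?_
      have e1 : fc (Pool.Agent.U162.SF.vb T t) = fun k => fc (u t) k + (-1 : ℝ) • fc (fun x => u t x - Pool.Agent.U162.SF.vb T t x) k := by
        funext k
        rw [Pool.Agent.U162.SF.fc_sub su sv, neg_one_smul]
        abel
      rw [e1]
      refine (Pool.Agent.U162.SF.crit_add (by linarith) _ _).trans (add_le_add le_rfl (le_trans ?_ h5))
      refine Pool.Agent.U162.MU.crit_mono (fun k => ?_) (by linarith)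
      rw [neg_one_smul, enorm_neg]
    refine ENNReal.tendsto_nhds_top fun n => ?_
    have h4 : T * (n + 2) / (n + 3) < T := by
      rw [div_lt_iff₀ (by positivity)]
      nlinarith
    filter_upwards [Ioo_mem_nhdsLT h4] with t ht
    have ht0 : 0 ≤ t := le_trans (by positivity) ht.1.le
    have h5 := hlow t ⟨ht0, ht.2⟩
    have h6 : ((n : ℝ) + 2) < t / (T - t) := by
      rw [lt_div_iff₀ (by linarith [ht.2])]
      have := ht.1
      rw [div_lt_iff₀ (by positivity)] at this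
      nlinarith
    have h7 : (n : ℝ≥0∞) + 2 ≤ critNorm s (fc (u t)) + 1 := by
      refine le_trans (le_of_eq ?_) ((ENNReal.ofReal_le_ofReal h6.le).trans h5)
      rw [ENNReal.ofReal_add (by positivity) (by norm_num), ENNReal.ofReal_natCast]
      norm_num
    have h8 : (n : ℝ≥0∞) + 1 ≤ critNorm s (fc (u t)) := by
      have h9 : (n : ℝ≥0∞) + 1 + 1 ≤ critNorm s (fc (u t)) + 1 := by
        refine le_trans (le_of_eq ?_) h7
        rw [add_assoc]; norm_num
      exact (ENNReal.add_le_add_iff_right ENNReal.one_ne_top).1 h9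
    refine lt_of_lt_of_le ?_ h8
    exact_mod_cast Nat.lt_succ_self n

/-- (1) Let `v` be any smooth velocity and `g` any smooth force on `[0, T_*)`, where `T_* ≤ ∞` is the supremum of the
times `0 = T_0 < T_1 < ⋯`. Let `s_i > 2`, `0 < r_i < 2`, `ε_i > 0` and `m_i` be arbitrary. There are a smooth force `f`
on `[0, T_*)` and a smooth solution `u` of the Navier-Stokes equations with this force such that `u(T_i) = v(T_i)`, and
such that on `I_i = [T_i, T_(i+1)]` the integral of the norm of `f - g` in `FB^{-1}_{1,s_i}` is at most `ε_i`, the norm of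
`u - v` in `FB^{-1}_{1,s_i}` is at most `ε_i` at every time, the integral of the power `r_i` of the Wiener norm of `u - v`
is at most `ε_i` and, outside finitely many intervals of total length at most `ε_i`, `f = g` and the derivatives of `u - v`
of order at most `m_i` are at most `ε_i`.

(2) Hence there is for all `T, ε > 0`, `s > 2` a force `f` which is smooth on `[0, T)` and has a norm of at most `ε` in
`L^1(0, T; FB^{-1}_{1,s})` such that the smooth solution which starts with the velocity zero becomes unbounded in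
`FB^{-1}_{1,s}` as `t` tends to `T`.

(3) Both are false for `s = 2`: if the initial velocity and the force of a smooth solution are small in the norms of
`FB^{-1}_{1,2}` and `L^1 FB^{-1}_{1,2}`, then the velocity is small in `FB^{-1}_{1,2}` at all times. -/
theorem result {ν : ℝ} (hν : 0 < ν) :
    (∀ {T : ℕ → ℝ} {v g : ℝ → R3 → R3} {s r ε : ℕ → ℝ}, StrictMono T → T 0 = 0 →
      SmoothOn (Span T) v → DivFree (Span T) v → SmoothOn (Span T) g →
      (∀ i, 2 < s i) → (∀ i, 0 < r i ∧ r i < 2) → (∀ i, 0 < ε i) → ∀ m : ℕ → ℕ,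
      ∃ (f u : ℝ → R3 → R3) (p : ℝ → R3 → ℝ), Solves ν (Span T) f u p ∧ (∀ i, u (T i) = v (T i)) ∧ ∀ i,
        ∫⁻ t in Icc (T i) (T (i + 1)), critNorm (s i) (fc fun x => f t x - g t x) ≤ ENNReal.ofReal (ε i) ∧
        (∀ t ∈ Icc (T i) (T (i + 1)), critNorm (s i) (fc fun x => u t x - v t x) ≤ ENNReal.ofReal (ε i)) ∧
        ∫⁻ t in Icc (T i) (T (i + 1)), wiener (fun x => u t x - v t x) ^ r i ≤ ENNReal.ofReal (ε i) ∧
        Outside (ε i) (T i) (T (i + 1)) (fun t => f t = g t ∧ CloseC (m i) (ε i) (u t) (v t)) ∧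
        ((∀ t ∈ Icc (T i) (T (i + 1)), v t = 0 ∧ g t = 0) → ∀ t ∈ Icc (T i) (T (i + 1)), f t = 0 ∧ u t = 0)) ∧
    (∀ {T s ε : ℝ}, 0 < T → 2 < s → 0 < ε →
      ∃ (f u : ℝ → R3 → R3) (p : ℝ → R3 → ℝ), Solves ν (Ico 0 T) f u p ∧ u 0 = 0 ∧
        ∫⁻ t in Ico 0 T, critNorm s (fc (f t)) ≤ ENNReal.ofReal ε ∧
        Tendsto (fun t => critNorm s (fc (u t))) (𝓝[<] T) (𝓝 ⊤)) ∧
    (∀ {T e : ℝ} {f u : ℝ → R3 → R3} {p : ℝ → R3 → ℝ}, Solves ν (Ico 0 T) f u p → 0 ≤ e → e ≤ ν / 300 →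
      critNorm 2 (fc (u 0)) ≤ ENNReal.ofReal e → ∫⁻ t in Ico 0 T, critNorm 2 (fc (f t)) ≤ ENNReal.ofReal (e / 4) →
      ∀ t ∈ Ico 0 T, critNorm 2 (fc (u t)) ≤ ENNReal.ofReal (4 * e)) := by
  refine ⟨fun {T v g s r ε} hT hT0 hv hdiv hg hs hr hε m => flex hν hT hT0 hv hdiv hg hs hr hε m,
    fun {T s ε} hT hs hε => blow hν hT hs hε, fun {T e f u p} h he he' hi hf t ht =>
    Pool.Agent.U162.SF.rigid hν (sln h) he he' hi ((lintegral_mono_set Ioo_subset_Ico_self).trans hf) ht⟩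

end Pool.Agent.Results.MP_6bf1e5_an.Flexibility
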