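import Pool.Agent.U136.RT.Fine2

set_option autoImplicit false

/-!
# Navier-Stokes equations with random wave vectors and random local triads

In Fourier variables on the torus `(ℝ / 2πℤ) ^ 3` the Navier-Stokes equations are
`u_m' = -ν |m|² u_m - i P_m ∑_{k + l = m} (u_k · l) u_l`, a sum over the triads
`k + l + (-m) = 0`. We multiply the interaction of each triad by a coefficient `g(k, l, -m)`, which
is symmetric, even and at most `1` in absolute value, so that the nonlinear term conserves energy,
and replace `|m|²` by `|m| ^ (2α)`.

Randomness.
* `K` is a random symmetric set of wave vectors: the pairs `±k` are kept independently with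
  probability at most `C |k| ^ (-a)` (fractal Fourier decimation of Frisch, Pomyalov, Procaccia,
  Ray: dimension `D = 3 - a`).
* The triads are labelled so that at most `D R ^ γ` of the triads in the cube of size `R` have the
  same label, and the `X c` (`c` a label) are independent with values in `[-1, 1]` and means with
  `|E X_c| min ^ (5/2) ≤ B max ^ (2β)` (minimum and maximum of the three lengths).

Theorem. Almost surely, for all `ν > 0`, all `α > max (1/2 + γ/4, β, 5/4 - 3a/4)`, all `g` which
agree with `X` on the triads that are neither inside `K` nor nonlocal (`min ^ (5/2) ≤ B max ^ (2β)`)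
and all smooth data, there is a global smooth solution, unique in its class. The null set does not
depend on `ν`, `α`, `g` and the data.

Examples with `α = 1` (the Laplacian).
* `X = 0`, `g` the indicator function of the triads inside `K`: the Navier-Stokes equations
  projected onto the random wave vectors are globally regular for `D < 8/3`.
* The true coefficient `g = 1` on all triads whose shortest wave vector is at most (the longest
  one) to the power `4/5 - ε` and on all triads inside `K`, `a > 1/3`; on the other (local) triads
  random signs which depend only on the three lengths (`γ > 5/3`).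
For independent signs on all triads the critical exponent `5/4` of Lions drops to `1/2`.

Proof: the trilinear form in the balance of the Sobolev norms is estimated on each dyadic shell;
centred part: Hoeffding's inequality, a union bound over all boxes `A × B × C` of sets of wave
vectors and an expansion in binary digits; triads inside `K`: Cauchy-Schwarz and the number of the
`m` with `m`, `p - m`, `q - m` in `K`; nonlocal triads and mean: a pointwise estimate with the
energy. Lengths: divisor bound for `r_2` and at most `C R ^ (2/3)` lattice points on a circle.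

Blueprint: Pool/Agent/N983/RT in the starting library (helper983), 13 of 25 parts proved there.
Parts of this run: helpers 136, 178, 261, 396, 448, 527, 652, 671, 692, 884, 898, 913.
-/

namespace Pool.Agent.Results.MP_6bf1e5_an.RandomTriads

open MeasureTheory ProbabilityTheory Pool.Agent.N983.RT Pool.Agent.U136.RT.Lab

/-- Almost surely, the Navier-Stokes equations with random coefficients of the local triads and a
random set of wave vectors are globally well-posed for all smooth data; the labels may be the
triads themselves or the triples of lengths. -/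
theorem result :
    (∀ (ι : Type) [Countable ι] (lab : Wv → Wv → Wv → ι) (D γ : ℝ), 0 ≤ γ → Labels lab D γ →
      ∀ (Ω : Type) [MeasurableSpace Ω] (μ : Measure Ω) [IsProbabilityMeasure μ]
        (X : ι → Ω → ℝ), (∀ c, Measurable (X c)) → iIndepFun X μ →
        (∀ c, ∀ᵐ ω ∂μ, |X c ω| ≤ 1) →
      ∀ B β : ℝ, (∀ k l m : Wv, k ≠ 0 → l ≠ 0 → m ≠ 0 → k + l + m = 0 →
        |∫ ω, X (lab k l m) ω ∂μ| * mn k l m ^ (5 / 4 : ℝ) ≤ B * mx k l m ^ β) →
      ∀ Y : Sym2 Wv → Ω → ℝ, (∀ c, Measurable (Y c)) → iIndepFun Y μ →
      ∀ C a : ℝ, (∀ k, k ≠ 0 →
        μ {ω | Y s(k, -k) ω = 1} ≤ ENNReal.ofReal (C * nsq k ^ (-a / 2))) →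
      ∀ᵐ ω ∂μ, ∀ ν α : ℝ, 0 < ν → 1 / 2 + γ / 4 < α → β < α → 5 / 4 - 3 * a / 4 < α →
        ∀ g : Wv → Wv → Wv → ℝ, Arr g →
          (∀ k l m, (k ∈ kept Y ω ∧ l ∈ kept Y ω ∧ m ∈ kept Y ω) ∨
            mn k l m ^ (5 / 4 : ℝ) ≤ B * mx k l m ^ β ∨ g k l m = X (lab k l m) ω) →
          ∀ S : Set Wv, (∀ k l m, m ∉ S → g k l m = 0) → GWP g ν α S) ∧
    Labels fine 36 0 ∧
    ∀ γ : ℝ, 5 / 3 < γ → ∃ D, Labels iso D γ :=
  ⟨fun _ _ lab D γ hγ hl _ _ μ _ X hX hi hX1 B β hm Y hY hYi C a hs =>
    main lab D γ hγ hl μ X hX hi hX1 B β hm Y hY hYi C a hs, fine_labels, iso_labels'⟩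

end Pool.Agent.Results.MP_6bf1e5_an.RandomTriads
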