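import Pool.Agent.U162.MU.SteerD
import Pool.Agent.U162.SH.Opt2

/-!
Open sets of large smooth data near every smooth datum, whose solutions follow a prescribed global solution; stability
at the endpoint; the optimal cost.

`R3 = Fin 3 → ℝ`, `Fq = Fin 3 → ℤ`. `AdmissiblePeriodic`, `fc` and `critNorm` are in
`Pool.Agent.H356R3.NS.Defs`, `leiLin` in `Pool.Agent.H356R3.NS.Defs2`, `Field` in
`Pool.Agent.U162.GE.Defs`.
-/

open MeasureTheory Set

namespace Pool.Agent.Results.MP_6bf1e5_an.Steering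

open Pool.Agent.H356R3.NS Pool.Agent.U162.TS Pool.Agent.U162.GE

/-- First part: let `v` be an admissible periodic solution (with a smooth initial velocity `g`), and let `u₀` be any
smooth periodic divergence free velocity. In each neighbourhood of `u₀` in the critical norm of `FB^{-1}_{1,s}`,
`s > 2`, there is an initial velocity `b` with the same low frequencies as `u₀`, and a neighbourhood of `b` in the
critical norm of `FB^{-1}_{1,2}`, such that all initial velocities in this neighbourhood start admissible periodic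
solutions which are uniformly within `ε` of `v` after the time `ε`. The distance of `b` and `u₀` in `FB^{-1}_{1,2}`
is at most the square root of `1000 ν ‖g - u₀‖ + ε`, with the Lei-Lin norm.

Second part: this fails for `s = 2`, as all initial velocities in a neighbourhood of `g` in `FB^{-1}_{1,2}` start
admissible periodic solutions which are close to `v` at all times.

Third part: the distance of `b` and `u₀` in `FB^{-1}_{1,2}` is optimal up to a factor. If the solution `u` with an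
initial velocity `b` with the same low frequencies as `u₀` is within `ε` of `v` at the time `ε`, where `ε` is small, then
this distance is greater than `ν / 600` or `150` times its square is at least `ν (‖g - u₀‖ - η)`. -/
theorem result {ν : ℝ} (hν : 0 < ν) :
    (∀ {u₀ g : R3 → R3}, Field u₀ → Field g → ∀ {v : ℝ → R3 → R3} {p : ℝ → R3 → ℝ}, AdmissiblePeriodic ν g v p →
      ∀ {s : ℝ}, 2 < s → ∀ {ε : ℝ}, 0 < ε → ∀ K0 : ℕ,
      ∃ b : R3 → R3, Field b ∧ (∀ k : Fq, ∑ i, k i ^ 2 ≤ (K0 : ℤ) → fc b k = fc u₀ k) ∧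
        critNorm s (fun k i => fc b k i - fc u₀ k i) ≤ ENNReal.ofReal ε ∧
        critNorm 2 (fun k i => fc b k i - fc u₀ k i) ^ 2
          ≤ ENNReal.ofReal (1000 * ν * (leiLin fun k i => fc g k i - fc u₀ k i).toReal + ε) ∧
        ∃ δ : ℝ, 0 < δ ∧ ∀ u₁ : R3 → R3, Field u₁ →
          critNorm 2 (fun k i => fc u₁ k i - fc b k i) ≤ ENNReal.ofReal δ →
          ∃ u q, AdmissiblePeriodic ν u₁ u q ∧ (∀ t, ε ≤ t → ∀ x i, |u t x i - v t x i| ≤ ε) ∧
            ∫⁻ t in Ioi ε, (⨆ x, ‖u t x - v t x‖ₑ) ^ 2 ≤ ENNReal.ofReal ε) ∧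
    (∀ {g : R3 → R3}, Field g → ∀ {v : ℝ → R3 → R3} {p : ℝ → R3 → ℝ}, AdmissiblePeriodic ν g v p →
      ∀ {ε : ℝ}, 0 < ε → ∃ δ : ℝ, 0 < δ ∧ ∀ u₁ : R3 → R3, Field u₁ →
        critNorm 2 (fun k i => fc u₁ k i - fc g k i) ≤ ENNReal.ofReal δ →
        ∃ u q, AdmissiblePeriodic ν u₁ u q ∧ (∀ t, ε ≤ t → ∀ x i, |u t x i - v t x i| ≤ ε) ∧
          ∫⁻ t in Ioi (0 : ℝ), (⨆ x, ‖u t x - v t x‖ₑ) ^ 2 ≤ ENNReal.ofReal ε) ∧
    (∀ {u₀ g : R3 → R3}, Field u₀ → Field g → ∀ {v : ℝ → R3 → R3} {p : ℝ → R3 → ℝ}, AdmissiblePeriodic ν g v p →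
      ∀ {η : ℝ}, 0 < η → ∃ (ε₀ : ℝ) (K0 : ℕ), 0 < ε₀ ∧ ∀ ε : ℝ, 0 < ε → ε ≤ ε₀ →
        ∀ {b : R3 → R3} {u : ℝ → R3 → R3} {q : ℝ → R3 → ℝ}, Field b →
        (∀ k : Fq, ∑ i, k i ^ 2 ≤ (K0 : ℤ) → fc b k = fc u₀ k) →
        AdmissiblePeriodic ν b u q → (∀ x i, |u ε x i - v ε x i| ≤ ε) →
        ∀ {e : ℝ}, 0 ≤ e → e ≤ ν / 600 → critNorm 2 (fun k i => fc b k i - fc u₀ k i) ≤ ENNReal.ofReal e →
        leiLin (fun k i => fc g k i - fc u₀ k i) ≤ ENNReal.ofReal (150 * e ^ 2 / ν + η)) := by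
  refine ⟨fun hu₀ hg _ _ hv _ hs _ hε K0 => ?_, fun hg _ _ hv _ hε => Pool.Agent.U162.SF.stab hν hg hv hε,
    fun hu₀ hg _ _ hv _ hη => Pool.Agent.U162.SF.opt hν hu₀ hg hv hη⟩
  obtain ⟨b, h1, h2, h3, h4, δ, hδ, h5⟩ := Pool.Agent.U162.MU.steering3 hν hu₀ hg hv hs hε K0
  obtain ⟨δ', hδ', h6⟩ := Pool.Agent.U162.SF.heatSq_of_crit hν hδ
  exact ⟨b, h1, h2, h3, h4, δ', hδ', fun u₁ hu₁ hc => h5 u₁ hu₁ (h6 _ hc)⟩

end Pool.Agent.Results.MP_6bf1e5_an.Steering
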